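import Pool.Agent.Lib.MP_d042fc_an.OscD

/-!
# Every real solution of the sextic Freud string equation that is not positive oscillates

For all real `τ`, `t`: a real solution of (E) with `b 0 = 0` that is not a positive solution
changes sign infinitely often.
-/

namespace Pool.Agent.Results.MP_d042fc_an.Oscillation

open Pool.Agent.Lib.MP_d042fc_an

theorem result (τ t : ℝ) (b : ℕ → ℝ) (h0 : b 0 = 0) (hE : ∀ n, 1 ≤ n → StringEq τ t b n)
    (hneg : ∃ n, 1 ≤ n ∧ b n ≤ 0) : ∀ N : ℕ, ∃ n, N ≤ n ∧ b n * b (n + 1) < 0 :=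
  Osc.oscillates h0 hE hneg

end Pool.Agent.Results.MP_d042fc_an.Oscillation
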