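import Pool.Agent.Lib.MP_d042fc_an.Limit

/-!
# The sextic Freud string equation has exactly one positive solution

For all real `τ`, `t` (in particular for `t = -κ τ^2`), equation (E) has exactly one positive
solution: the recurrence coefficients of the monic orthogonal polynomials for the weight
`exp (-x^6 + τ x^4 + t x^2)`.
-/

namespace Pool.Agent.Results.MP_d042fc_an.UniquePositive

open Pool.Agent.Lib.MP_d042fc_an

theorem result (τ t : ℝ) :
    ∃ β : ℕ → ℝ, IsRecurrenceCoeff τ t β ∧
      β 1 = moment τ t 2 / moment τ t 0 ∧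
      β 2 = moment τ t 4 / moment τ t 2 - moment τ t 2 / moment τ t 0 ∧
      ∀ b : ℕ → ℝ, IsPositiveSolution τ t b ↔ b = β := by
  have hβ := isPositiveSolution_gsCoeff τ t
  refine ⟨gsCoeff (L0 τ t), isRecurrenceCoeff_gsCoeff τ t, hβ.first_two.1, hβ.first_two.2,
    fun b => ⟨fun hb => ?_, fun h => h ▸ hβ⟩⟩
  exact hb.ext_of_two hβ (hb.first_two.1.trans hβ.first_two.1.symm)
    (hb.first_two.2.trans hβ.first_two.2.symm)

end Pool.Agent.Results.MP_d042fc_an.UniquePositive
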